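import Mathlib
import Pool.Agent.H73.WMMain

/-!
Tate classes in odd degree and weight-monodromy, for MP_d037d4_ag.
-/

namespace Pool.H87.WMT

open Pool.H73.WM Pool.H73.WM.Theory Module Module.End TensorProduct Polynomial

section weil
variable {Ω : Type*} [Field Ω] [CharZero Ω] {q : ℕ}

/-- A root of a Weil number of weight `w` of order `w` has weight `1`. -/
theorem isWeil_root {γ : Ω} {w : ℕ} (hw : 0 < w) (h : IsWeil q (γ ^ w) w) : IsWeil q γ 1 := by
  have halg : IsAlgebraic ℚ γ := IsAlgebraic.of_pow hw h.1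
  refine ⟨halg, ?_⟩
  intro z hz
  have hdvd : minpoly ℚ γ ∣ (minpoly ℚ (γ ^ w)).comp (X ^ w) := by
    apply minpoly.dvd
    rw [Polynomial.aeval_comp]
    simp only [map_pow, Polynomial.aeval_X]
    exact minpoly.aeval _ _
  obtain ⟨r, hr⟩ := hdvd
  have h1 : aeval (z ^ w) (minpoly ℚ (γ ^ w)) = 0 := by
    have h2 : aeval z ((minpoly ℚ (γ ^ w)).comp (X ^ w)) = 0 := by
      rw [hr, map_mul, hz, zero_mul]
    rw [Polynomial.aeval_comp] at h2
    simpa using h2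
  have h3 := h.2 _ h1
  rw [norm_pow] at h3
  have h4 : (q : ℝ) ^ (((w : ℤ) : ℝ) / 2) = ((q : ℝ) ^ (((1 : ℤ) : ℝ) / 2)) ^ w := by
    rw [← Real.rpow_natCast, ← Real.rpow_mul (Nat.cast_nonneg q)]
    congr 1
    push_cast
    ring
  rw [h4] at h3
  exact (pow_left_inj₀ (norm_nonneg z) (Real.rpow_nonneg (Nat.cast_nonneg q) _) hw.ne').1 h3

/-- If `α` is a Weil number of weight `w`, then `q ^ w / α` is conjugate to `α`. -/
theorem aeval_dual {α : Ω} {w : ℕ} (h0 : α ≠ 0) (h : IsWeil q α w) :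
    aeval ((q : Ω) ^ w / α) (minpoly ℚ α) = 0 := by
  let A := algebraicClosure ℚ Ω
  let a : A := ⟨α, (mem_algebraicClosure_iff).2 h.1⟩
  have ha0 : a ≠ 0 := by
    intro hc
    apply h0
    exact congrArg Subtype.val hc
  have hal : Algebra.IsAlgebraic ℚ A := algebraicClosure.isAlgebraic ℚ Ω
  let ψ : A →ₐ[ℚ] ℂ := IsAlgClosed.lift
  have hma : minpoly ℚ a = minpoly ℚ α :=
    (minpoly.algebraMap_eq (algebraMap A Ω).injective a).symm
  have hz : aeval (ψ a) (minpoly ℚ α) = 0 := by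
    rw [← hma, Polynomial.aeval_algHom_apply, minpoly.aeval, map_zero]
  have hn := h.2 _ hz
  have hq0 : (0 : ℝ) ≤ q := Nat.cast_nonneg q
  have hn2 : (starRingEnd ℂ) (ψ a) = (q : ℂ) ^ w / ψ a := by
    have hpa : ψ a ≠ 0 := by
      intro hc
      apply ha0
      exact (map_eq_zero ψ).1 hc
    rw [eq_div_iff hpa]
    have h1 : (starRingEnd ℂ) (ψ a) * ψ a = ((‖ψ a‖ ^ 2 : ℝ) : ℂ) := by
      rw [mul_comm, Complex.mul_conj, Complex.normSq_eq_norm_sq]
    rw [h1, hn, ← Real.rpow_natCast, ← Real.rpow_mul hq0]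
    have h2 : ((w : ℤ) : ℝ) / 2 * ((2 : ℕ) : ℝ) = (w : ℝ) := by push_cast; ring
    rw [h2, Real.rpow_natCast]
    push_cast
    rfl
  have h3 : aeval ((q : ℂ) ^ w / ψ a) (minpoly ℚ α) = 0 := by
    rw [← hn2]
    have h4 := Polynomial.aeval_conj ((minpoly ℚ α).map (algebraMap ℚ ℝ)) (ψ a)
    rw [Polynomial.aeval_map_algebraMap, Polynomial.aeval_map_algebraMap, hz, map_zero] at h4
    exact h4
  have h5 : aeval ((q : A) ^ w / a) (minpoly ℚ α) = 0 := by
    have h6 : ψ (aeval ((q : A) ^ w / a) (minpoly ℚ α)) = 0 := by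
      rw [← Polynomial.aeval_algHom_apply]
      have : ψ ((q : A) ^ w / a) = (q : ℂ) ^ w / ψ a := by simp
      rw [this]
      exact h3
    exact (map_eq_zero ψ).1 h6
  have h7 := congrArg (algebraMap A Ω) h5
  rw [map_zero, ← Polynomial.aeval_algebraMap_apply] at h7
  have h8 : algebraMap A Ω ((q : A) ^ w / a) = (q : Ω) ^ w / α := by
    rw [map_div₀, map_pow, map_natCast]
    rfl
  rw [h8] at h7
  exact h7

theorem isWeil_dual {α : Ω} {w : ℕ} (h0 : α ≠ 0) (h : IsWeil q α w)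
    (hint : IsIntegral ℤ α) :
    IsWeil q ((q : Ω) ^ w / α) w ∧ IsIntegral ℤ ((q : Ω) ^ w / α) := by
  have h1 := aeval_dual h0 h
  have hir : Irreducible (minpoly ℚ α) := minpoly.irreducible h.1.isIntegral
  have h2 : minpoly ℚ α = minpoly ℚ ((q : Ω) ^ w / α) :=
    minpoly.eq_of_irreducible_of_monic hir h1 (minpoly.monic h.1.isIntegral)
  refine ⟨⟨⟨minpoly ℚ α, hir.ne_zero, h1⟩, ?_⟩, ?_⟩
  · intro z hz
    rw [← h2] at hz
    exact h.2 z hz
  · refine ⟨minpoly ℤ α, minpoly.monic hint, ?_⟩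
    have h3 : minpoly ℚ α = (minpoly ℤ α).map (algebraMap ℤ ℚ) :=
      minpoly.isIntegrallyClosed_eq_field_fractions' ℚ hint
    rw [h3, Polynomial.aeval_map_algebraMap] at h1
    exact h1

end weil

section theory
variable {q : ℕ} {Ω : Type} [Field Ω] [CharZero Ω]

/-- The Tate classes of weight `2 r` in `H^j(Y)`: the classes `x` with `N x = 0`, `F x = q ^ r x`. -/
def tate (T : Theory q Ω) (Y : T.Var) (j r : ℕ) : Submodule Ω (T.H Y j) :=
  LinearMap.ker (T.N Y j) ⊓ eigenspace (T.F Y j) ((q : Ω) ^ r)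

/-- Three more known facts. -/
structure Arithmetic (T : Theory q Ω) : Prop where
  /-- The eigenvalues of Frobenius on cohomology are algebraic integers. -/
  integral : ∀ (Y : T.Var) (i : ℕ) (α : Ω) (x : T.H Y i), x ≠ 0 → T.f x = α • x → IsIntegral ℤ α
  /-- Honda-Tate (with lifting to characteristic zero): every algebraic integer `γ` which is a
  Weil number of weight `1` is, up to a root of unity, an eigenvalue of Frobenius on the classes
  killed by `N` in the `H^1` of some variety. -/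
  hondaTate : ∀ γ : Ω, IsIntegral ℤ γ → IsWeil q γ 1 →
    ∃ (A : T.Var) (m : ℕ) (δ : Ω), 0 < m ∧ δ ^ m = γ ^ m ∧ T.HasClass A 1 δ
  /-- Surfaces with many Tate classes in `H^2` (blowups of the plane). -/
  surfaces : ∀ n : ℕ, ∃ B : T.Var, T.dim B = 2 ∧ n ≤ finrank Ω (tate T B 2 1)

variable {T : Theory q Ω}

/-- There is a variety of dimension `d` with a nonzero class in `H^i` killed by `N` on which
Frobenius acts by `α`. -/
def Cls (T : Theory q Ω) (d i : ℕ) (α : Ω) : Prop :=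
  ∃ Z : T.Var, T.dim Z = d ∧ ∃ x : T.H Z i, x ≠ 0 ∧ T.N Z i x = 0 ∧ T.F Z i x = α • x

theorem Cls.mul {d i d' i' : ℕ} {α β : Ω} (h : Cls T d i α) (h' : Cls T d' i' β) :
    Cls T (d + d') (i + i') (α * β) := by
  obtain ⟨Z, hZ, x, hx0, hxN, hxF⟩ := h
  obtain ⟨Y, hY, y, hy0, hyN, hyF⟩ := h'
  refine ⟨T.prod Z Y, by rw [T.dim_prod, hZ, hY], T.cross Z Y i i' x y, cross_ne Z Y i i' hx0 hy0,
    ?_, ?_⟩
  · rw [T.cross_N, hxN, hyN]
    simp
  · rw [T.cross_F, hxF, hyF]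
    simp only [map_smul, LinearMap.smul_apply, smul_smul]
    congr 1
    ring

theorem Cls.pow {d i : ℕ} {α : Ω} (h : Cls T d i α) {n : ℕ} (hn : 0 < n) :
    Cls T (n * d) (n * i) (α ^ n) := by
  obtain ⟨m, rfl⟩ : ∃ m, n = m + 1 := ⟨n - 1, by omega⟩
  clear hn
  induction m with
  | zero => simpa using h
  | succ m ih =>
    have := ih.mul h
    have e1 : (m + 1) * d + d = (m + 1 + 1) * d := by ring
    have e2 : (m + 1) * i + i = (m + 1 + 1) * i := by ring
    rw [e1, e2, ← pow_succ] at this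
    exact this

theorem Cls.mulE {d i : ℕ} {α : Ω} (h : Cls T d i α) (n : ℕ) : Cls T (d + n) (i + n) α := by
  induction n with
  | zero => simpa using h
  | succ n ih =>
    obtain ⟨x, hx0, hxF, hxN⟩ := T.E_H1
    have := ih.mul ⟨T.E, T.dim_E, x, hx0, hxN, hxF⟩
    rw [mul_one] at this
    exact this

theorem Cls.mulOne {d i : ℕ} {α : Ω} (h : Cls T d i α) (n : ℕ) : Cls T (d + n) i α := by
  induction n with
  | zero => simpa using h
  | succ n ih =>
    obtain ⟨x, hx0, hxF, hxN⟩ := T.P1_H0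
    have := ih.mul ⟨T.P1, T.dim_P1, x, hx0, hxN, hxF⟩
    rw [mul_one, add_zero] at this
    exact this

theorem Cls.mulTwo {d i : ℕ} {α : Ω} (h : Cls T d i α) (n : ℕ) :
    Cls T (d + n) (i + 2 * n) (α * (q : Ω) ^ n) := by
  induction n with
  | zero => simpa using h
  | succ n ih =>
    obtain ⟨x, hx0, hxF, hxN⟩ := T.P1_H2
    have := ih.mul ⟨T.P1, T.dim_P1, x, hx0, hxN, hxF⟩
    rw [mul_assoc, ← pow_succ] at this
    exact this

/-- From a class with eigenvalue `q ^ r` and positive excess to odd middle cohomology. -/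
theorem Cls.middle {d i r e : ℕ} (he : 0 < e) (hr : i + e = 2 * r) (h : Cls T d i ((q : Ω) ^ r))
    (s : ℕ) (hs : d + e + r ≤ s) : Cls T (2 * s + 1) (2 * s + 1) ((q : Ω) ^ (s + 1)) := by
  have h1 := h.mulE (e - 1)
  have h2 := h1.mulTwo (s + 1 - r)
  have h3 := h2.mulOne (2 * s + 1 - (d + (e - 1) + (s + 1 - r)))
  have e1 : d + (e - 1) + (s + 1 - r) + (2 * s + 1 - (d + (e - 1) + (s + 1 - r))) = 2 * s + 1 := by
    omega
  have e2 : i + (e - 1) + 2 * (s + 1 - r) = 2 * s + 1 := by omega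
  have e3 : (q : Ω) ^ r * (q : Ω) ^ (s + 1 - r) = (q : Ω) ^ (s + 1) := by
    rw [← pow_add]; congr 1; omega
  rw [e1, e2, e3] at h3
  exact h3

/-- A class of positive excess gives a Tate class in odd middle cohomology, in all large odd
dimensions. -/
theorem Bad.tate [IsAlgClosed Ω] (hT : Arithmetic T) {d i : ℕ} {w : ℤ}
    (hw : (i : ℤ) < w) (h : Bad T d i w) :
    ∃ s₀ : ℕ, ∀ s, s₀ ≤ s → Cls T (2 * s + 1) (2 * s + 1) ((q : Ω) ^ (s + 1)) := by
  obtain ⟨Y, hY, x, hx0, hxN, α, hα, hxF⟩ := h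
  obtain ⟨v, rfl⟩ : ∃ v : ℕ, w = v := ⟨w.toNat, by omega⟩
  have hv : 0 < v := by omega
  have hα0 : α ≠ 0 := by
    rintro rfl
    rw [zero_smul] at hxF
    exact hx0 (T.basic.F_inj Y i x hxF)
  have hint := hT.integral Y i α x hx0 hxF
  obtain ⟨hβ, hβi⟩ := isWeil_dual hα0 hα hint
  obtain ⟨γ, hγ⟩ := IsAlgClosed.exists_pow_nat_eq ((q : Ω) ^ v / α) hv
  have hγi : IsIntegral ℤ γ := by
    apply IsIntegral.of_pow hv
    rw [hγ]
    exact hβi
  have hγw : IsWeil q γ 1 := by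
    apply isWeil_root hv
    rw [hγ]
    exact hβ
  obtain ⟨A, m, δ, hm, hδ, y, hy0, hyF, hyN⟩ := hT.hondaTate γ hγi hγw
  have h1 : Cls T (T.dim A) 1 δ := ⟨A, rfl, y, hy0, hyN, hyF⟩
  have h2 : Cls T d i α := ⟨Y, hY, x, hx0, hxN, hxF⟩
  have h3 := (h2.mul (h1.pow hv)).pow hm
  have e1 : (α * δ ^ v) ^ m = (q : Ω) ^ (v * m) := by
    rw [mul_pow, ← pow_mul, mul_comm v m, pow_mul, hδ, ← pow_mul, mul_comm m v, pow_mul, hγ,
      ← mul_pow, mul_div_cancel₀ _ hα0, ← pow_mul]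
  rw [e1] at h3
  have hmv : m * i < m * v := by
    have : i < v := by exact_mod_cast hw
    exact Nat.mul_lt_mul_of_pos_left this hm
  refine ⟨m * (d + v * T.dim A) + (m * v - m * i) + v * m, fun s hs => ?_⟩
  refine Cls.middle (e := m * v - m * i) (by omega) ?_ h3 s (by omega)
  have e2 : m * (i + v * 1) = m * i + m * v := by ring
  have e3 : v * m = m * v := by ring
  rw [e2, e3]
  omega

theorem tate_ne_bot {d : ℕ} {α : Ω} (h : Cls T d d α) {r : ℕ} (hα : α = (q : Ω) ^ r) :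
    ∃ Z : T.Var, T.dim Z = d ∧ tate T Z (T.dim Z) r ≠ ⊥ := by
  obtain ⟨Z, hZ, x, hx0, hxN, hxF⟩ := h
  subst hZ
  refine ⟨Z, rfl, ?_⟩
  rw [Submodule.ne_bot_iff]
  refine ⟨x, ⟨hxN, ?_⟩, hx0⟩
  rw [SetLike.mem_coe, mem_eigenspace_iff, hxF, hα]

/-- Multiplying a Tate class by many Tate classes on a surface. -/
theorem many_tate (hT : Arithmetic T) {d r : ℕ} (h : Cls T d d ((q : Ω) ^ r)) (n : ℕ) :
    ∃ Z : T.Var, T.dim Z = d + 2 ∧ n ≤ finrank Ω (tate T Z (T.dim Z) (r + 1)) := by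
  obtain ⟨Z, hZ, x, hx0, hxN, hxF⟩ := h
  obtain ⟨B, hB, hn⟩ := hT.surfaces n
  have hdim : T.dim (T.prod Z B) = d + 2 := by rw [T.dim_prod, hZ, hB]
  refine ⟨T.prod Z B, hdim, hn.trans ?_⟩
  rw [hdim]
  let φ : T.H B 2 →ₗ[Ω] T.H (T.prod Z B) (d + 2) := T.cross Z B d 2 x
  have hφ : Function.Injective φ := by
    rw [← LinearMap.ker_eq_bot, LinearMap.ker_eq_bot']
    intro y hy
    by_contra hy0
    exact cross_ne Z B d 2 hx0 hy0 hy
  have hmap : (tate T B 2 1).map φ ≤ tate T (T.prod Z B) (d + 2) (r + 1) := by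
    rintro _ ⟨y, ⟨hyN, hyF⟩, rfl⟩
    rw [SetLike.mem_coe, LinearMap.mem_ker] at hyN
    rw [SetLike.mem_coe, mem_eigenspace_iff] at hyF
    refine ⟨?_, ?_⟩
    · rw [SetLike.mem_coe, LinearMap.mem_ker]
      change T.N (T.prod Z B) (d + 2) (T.cross Z B d 2 x y) = 0
      rw [T.cross_N, hxN, hyN]
      simp
    · rw [SetLike.mem_coe, mem_eigenspace_iff]
      change T.F (T.prod Z B) (d + 2) (T.cross Z B d 2 x y) = _
      rw [T.cross_F, hxF, hyF, map_smul, map_smul, LinearMap.smul_apply, smul_smul, pow_one,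
        mul_comm ((q : Ω)) ((q : Ω) ^ r), ← pow_succ]
  calc finrank Ω (tate T B 2 1) = finrank Ω ((tate T B 2 1).map φ) :=
        (Submodule.equivMapOfInjective φ hφ (tate T B 2 1)).finrank_eq
    _ ≤ _ := Submodule.finrank_mono hmap

end theory

end Pool.H87.WMT
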